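import Pool.Agent.Y250.SS.Stm

set_option autoImplicit false

/-! Project SS: homogenized polynomials. -/

namespace Pool.Agent.Y275.SS

open Pool.Agent.Y183.PP (Poly ev ev_add ev_sub ev_mul ev_neg ev_pow ev_C ev_X0 ev_X1 deg_add
  deg_sub deg_C deg_mul deg_sq)
open Pool.Agent.Y250.SS

/-- the polynomial `w` -/
noncomputable def W : Poly := 1 + MvPolynomial.X 0 ^ 2 + MvPolynomial.X 1 ^ 2

lemma ev_one (u : ℝ × ℝ) : ev 1 u = 1 := by simp [ev]

lemma ev_W (u : ℝ × ℝ) : ev W u = w u := by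
  simp only [W, w, ev_add, ev_pow, ev_X0, ev_X1, ev_one]

lemma deg_X (i : Fin 2) : (MvPolynomial.X i : Poly).totalDegree ≤ 1 := by
  rw [MvPolynomial.totalDegree_X]

lemma deg_pow' {p : Poly} {d : ℕ} (hp : p.totalDegree ≤ d) (k : ℕ) :
    (p ^ k).totalDegree ≤ k * d :=
  (MvPolynomial.totalDegree_pow p k).trans (Nat.mul_le_mul_left k hp)

lemma deg_W : W.totalDegree ≤ 2 := by
  unfold W
  refine deg_add (deg_add ?_ ?_) ?_
  · have : (1 : Poly) = MvPolynomial.C 1 := by simp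
    rw [this]
    exact deg_C 1 2
  · exact (deg_pow' (deg_X 0) 2).trans (by norm_num)
  · exact (deg_pow' (deg_X 1) 2).trans (by norm_num)

/-- `2 - w` -/
noncomputable def V : Poly := MvPolynomial.C 2 - W

lemma ev_V (u : ℝ × ℝ) : ev V u = 2 - w u := by
  simp only [V, ev_sub, ev_C, ev_W]

lemma deg_V : V.totalDegree ≤ 2 := deg_sub (deg_C 2 2) deg_W

/-- `2 u₁`, `2 u₂` -/
noncomputable def Y (i : Fin 2) : Poly := MvPolynomial.C 2 * MvPolynomial.X i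

lemma ev_Y0 (u : ℝ × ℝ) : ev (Y 0) u = 2 * u.1 := by
  simp only [Y, ev_mul, ev_C, ev_X0]

lemma ev_Y1 (u : ℝ × ℝ) : ev (Y 1) u = 2 * u.2 := by
  simp only [Y, ev_mul, ev_C, ev_X1]

lemma deg_Y (i : Fin 2) : (Y i).totalDegree ≤ 1 := by
  unfold Y
  exact (deg_mul (deg_C 2 0) (deg_X i)).trans (by norm_num)

lemma w_pos (u : ℝ × ℝ) : 0 < w u := by
  unfold w
  positivity

/-- the homogenized polynomial -/
noncomputable def hom (n : ℕ) (P : Poly3) : Poly :=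
  ∑ m ∈ P.support, MvPolynomial.C (MvPolynomial.coeff m P) * Y 0 ^ (m 0) * Y 1 ^ (m 1) *
    (-V) ^ (m 2) * W ^ (n - (m 0 + m 1 + m 2))

lemma supp_le {P : Poly3} {n : ℕ} (hP : P.totalDegree ≤ n) (m : Fin 3 →₀ ℕ)
    (hm : m ∈ P.support) : m 0 + m 1 + m 2 ≤ n := by
  have h := (MvPolynomial.le_totalDegree hm).trans hP
  rw [Finsupp.sum_fintype _ _ (by intro i; rfl), Fin.sum_univ_three] at h
  exact h

lemma deg_hom {P : Poly3} {n : ℕ} (hP : P.totalDegree ≤ n) : (hom n P).totalDegree ≤ 2 * n := by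
  unfold hom
  refine (MvPolynomial.totalDegree_finsetSum _ _).trans (Finset.sup_le ?_)
  intro m hm
  have h := supp_le hP m hm
  have hV : (-V).totalDegree ≤ 2 := by
    rw [MvPolynomial.totalDegree_neg]
    exact deg_V
  have h1 := deg_mul (deg_mul (deg_mul (deg_mul (deg_C (MvPolynomial.coeff m P) 0)
    (deg_pow' (deg_Y 0) (m 0))) (deg_pow' (deg_Y 1) (m 1))) (deg_pow' hV (m 2)))
    (deg_pow' deg_W (n - (m 0 + m 1 + m 2)))
  refine h1.trans ?_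
  omega

lemma ev_sum {ι : Type*} (s : Finset ι) (f : ι → Poly) (u : ℝ × ℝ) :
    ev (∑ i ∈ s, f i) u = ∑ i ∈ s, ev (f i) u := by simp [ev]

lemma ev_hom {P : Poly3} {n : ℕ} (hP : P.totalDegree ≤ n) (u : ℝ × ℝ) :
    ev (hom n P) u = w u ^ n * ev3 P (2 * u.1 / w u) (2 * u.2 / w u) (1 - 2 / w u) := by
  have hw := w_pos u
  unfold hom ev3
  rw [ev_sum, MvPolynomial.eval_eq', Finset.mul_sum]
  refine Finset.sum_congr rfl fun m hm => ?_
  have h := supp_le hP m hm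
  simp only [ev_mul, ev_C, ev_pow, ev_Y0, ev_Y1, ev_neg, ev_V, ev_W]
  rw [Fin.prod_univ_three]
  simp only [Matrix.cons_val_zero, Matrix.cons_val_one, Matrix.cons_val]
  have e : w u ^ n = w u ^ (n - (m 0 + m 1 + m 2)) * w u ^ (m 0) * w u ^ (m 1) * w u ^ (m 2) := by
    rw [← pow_add, ← pow_add, ← pow_add]
    congr 1
    omega
  have e0 : w u ^ (m 0) * (2 * u.1 / w u) ^ (m 0) = (2 * u.1) ^ (m 0) := by
    rw [← mul_pow]
    congr 1
    field_simp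
  have e1 : w u ^ (m 1) * (2 * u.2 / w u) ^ (m 1) = (2 * u.2) ^ (m 1) := by
    rw [← mul_pow]
    congr 1
    field_simp
  have e2 : w u ^ (m 2) * (1 - 2 / w u) ^ (m 2) = (-(2 - w u)) ^ (m 2) := by
    rw [← mul_pow]
    congr 1
    field_simp
    ring
  rw [e, ← e0, ← e1, ← e2]
  ring

/-- homogenization -/
theorem ht : S_HT := fun P n hP => ⟨hom n P, deg_hom hP, ev_hom hP⟩

lemma deg_pd {P : Poly3} {n : ℕ} (hP : P.totalDegree ≤ n) (j : Fin 3) :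
    (pd j P).totalDegree ≤ n := by
  classical
  refine le_trans ?_ hP
  unfold pd
  rw [MvPolynomial.totalDegree, Finset.sup_le_iff]
  intro m hm
  have h1 : m + Finsupp.single j 1 ∈ P.support := by
    rw [MvPolynomial.mem_support_iff] at hm ⊢
    intro h0
    apply hm
    rw [MvPolynomial.coeff_pderiv, h0, zero_mul]
  refine le_trans ?_ (MvPolynomial.le_totalDegree h1)
  rw [Finsupp.sum_fintype _ _ (by intro i; rfl), Finsupp.sum_fintype _ _ (by intro i; rfl)]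
  exact Finset.sum_le_sum fun i _ => by simp

/-- values at `X u` -/
lemma val_X (hF : S_XF) {P : Poly3} {n : ℕ} (hP : P.totalDegree ≤ n) (u : ℝ × ℝ)
    (hu : u.1 ^ 2 + u.2 ^ 2 < 1) :
    w u ^ n * ev3 P (X u).1 (X u).2 (-hh (X u)) = ev (hom n P) u := by
  have hw := w_pos u
  rw [ev_hom hP, hF.1 u hu.le]
  have e : -((2 - w u) / w u) = 1 - 2 / w u := by
    field_simp
    ring
  rw [e]
  rfl

lemma quot (hF : S_XF) (u : ℝ × ℝ) (hu : u.1 ^ 2 + u.2 ^ 2 < 1) :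
    0 < 2 - w u ∧ (2 - w u) * ((X u).1 / hh (X u)) = 2 * u.1 ∧
      (2 - w u) * ((X u).2 / hh (X u)) = 2 * u.2 ∧
      (2 - w u) ^ 3 * G11 (X u) = w u * (2 - w u) ^ 2 + w u * (2 * u.1) ^ 2 ∧
      (2 - w u) ^ 3 * G12 (X u) = w u * ((2 * u.1) * (2 * u.2)) ∧
      (2 - w u) ^ 3 * G22 (X u) = w u * (2 - w u) ^ 2 + w u * (2 * u.2) ^ 2 := by
  have hw := w_pos u
  have hv : 0 < 2 - w u := by
    unfold w
    linarith
  have hv' : 2 - w u ≠ 0 := hv.ne'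
  refine ⟨hv, ?_, ?_, ?_, ?_, ?_⟩
  · rw [hF.1 u hu.le]
    simp only [X]
    field_simp
  · rw [hF.1 u hu.le]
    simp only [X]
    field_simp
  · unfold G11
    rw [hF.1 u hu.le]
    simp only [X]
    field_simp
  · unfold G12
    rw [hF.1 u hu.le]
    simp only [X]
    field_simp
  · unfold G22
    rw [hF.1 u hu.le]
    simp only [X]
    field_simp

/-- the gradient as a polynomial -/
theorem gp (hF : S_XF) : S_GP := by
  intro P n hP
  refine ⟨V * hom n (pd 0 P) + Y 0 * hom n (pd 2 P), V * hom n (pd 1 P) + Y 1 * hom n (pd 2 P),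
    ?_, ?_, ?_⟩
  · refine deg_add ((deg_mul deg_V (deg_hom (deg_pd hP 0))).trans (by omega))
      ((deg_mul (deg_Y 0) (deg_hom (deg_pd hP 2))).trans (by omega))
  · refine deg_add ((deg_mul deg_V (deg_hom (deg_pd hP 1))).trans (by omega))
      ((deg_mul (deg_Y 1) (deg_hom (deg_pd hP 2))).trans (by omega))
  · intro u hu
    obtain ⟨hv, q1, q2, -, -, -⟩ := quot hF u hu
    constructor
    · rw [ev_add, ev_mul, ev_mul, ev_V, ev_Y0, ← val_X hF (deg_pd hP 0) u hu,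
        ← val_X hF (deg_pd hP 2) u hu, ← q1]
      unfold g1
      ring
    · rw [ev_add, ev_mul, ev_mul, ev_V, ev_Y1, ← val_X hF (deg_pd hP 1) u hu,
        ← val_X hF (deg_pd hP 2) u hu, ← q2]
      unfold g2
      ring

/-- homogeneity of the condition -/
lemma CD_smul {s α β γ e f g κ : ℝ} (hκ : 0 < κ) :
    CD s α β γ e f g ↔ CD s (κ * α) (κ * β) (κ * γ) (κ * e) (κ * f) (κ * g) := by
  have h4 : 0 < κ ^ 4 := by positivity
  unfold CD
  have e1 : (κ * g * (κ * α) - 2 * (κ * f) * (κ * β) + κ * e * (κ * γ)) ^ 2 -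
      2 * (κ * e * (κ * g) - (κ * f) ^ 2) * (κ * α * (κ * γ) - (κ * β) ^ 2) -
      2 * s ^ 2 * (κ * e * (κ * g) - (κ * f) ^ 2) ^ 2 =
      κ ^ 4 * ((g * α - 2 * f * β + e * γ) ^ 2 - 2 * (e * g - f ^ 2) * (α * γ - β ^ 2) -
        2 * s ^ 2 * (e * g - f ^ 2) ^ 2) := by ring
  have e2 : ((κ * α * (κ * γ) - (κ * β) ^ 2) + s ^ 2 * (κ * e * (κ * g) - (κ * f) ^ 2)) ^ 2 -
      s ^ 2 * (κ * g * (κ * α) - 2 * (κ * f) * (κ * β) + κ * e * (κ * γ)) ^ 2 =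
      κ ^ 4 * (((α * γ - β ^ 2) + s ^ 2 * (e * g - f ^ 2)) ^ 2 -
        s ^ 2 * (g * α - 2 * f * β + e * γ) ^ 2) := by ring
  rw [e1, e2, mul_pos_iff_of_pos_left h4, mul_pos_iff_of_pos_left h4]

/-- the entries as polynomials -/
noncomputable def g11 (n : ℕ) : Poly := W ^ n * (W * V ^ 2 + W * Y 0 ^ 2)
noncomputable def g12 (n : ℕ) : Poly := W ^ n * (W * (Y 0 * Y 1))
noncomputable def g22 (n : ℕ) : Poly := W ^ n * (W * V ^ 2 + W * Y 1 ^ 2)
noncomputable def h11 (n : ℕ) (P : Poly3) : Poly :=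
  V ^ 3 * hom n (pd 0 (pd 0 P)) + MvPolynomial.C 2 * Y 0 * V ^ 2 * hom n (pd 0 (pd 2 P)) +
    Y 0 ^ 2 * V * hom n (pd 2 (pd 2 P)) + (W * V ^ 2 + W * Y 0 ^ 2) * hom n (pd 2 P)
noncomputable def h12 (n : ℕ) (P : Poly3) : Poly :=
  V ^ 3 * hom n (pd 0 (pd 1 P)) + Y 1 * V ^ 2 * hom n (pd 0 (pd 2 P)) +
    Y 0 * V ^ 2 * hom n (pd 1 (pd 2 P)) + Y 0 * Y 1 * V * hom n (pd 2 (pd 2 P)) +
    W * (Y 0 * Y 1) * hom n (pd 2 P)
noncomputable def h22 (n : ℕ) (P : Poly3) : Poly :=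
  V ^ 3 * hom n (pd 1 (pd 1 P)) + MvPolynomial.C 2 * Y 1 * V ^ 2 * hom n (pd 1 (pd 2 P)) +
    Y 1 ^ 2 * V * hom n (pd 2 (pd 2 P)) + (W * V ^ 2 + W * Y 1 ^ 2) * hom n (pd 2 P)

lemma deg_cast {p : Poly} {a b : ℕ} (h : p.totalDegree ≤ a) (hab : a ≤ b) : p.totalDegree ≤ b :=
  h.trans hab

lemma deg_WV (i : Fin 2) : (W * V ^ 2 + W * Y i ^ 2).totalDegree ≤ 6 :=
  deg_add (deg_cast (deg_mul deg_W (deg_pow' deg_V 2)) (by norm_num))
    (deg_cast (deg_mul deg_W (deg_pow' (deg_Y i) 2)) (by norm_num))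

lemma deg_g11 (n : ℕ) : (g11 n).totalDegree ≤ 2 * n + 6 :=
  deg_cast (deg_mul (deg_pow' deg_W n) (deg_WV 0)) (by omega)

lemma deg_g22 (n : ℕ) : (g22 n).totalDegree ≤ 2 * n + 6 :=
  deg_cast (deg_mul (deg_pow' deg_W n) (deg_WV 1)) (by omega)

lemma deg_g12 (n : ℕ) : (g12 n).totalDegree ≤ 2 * n + 6 :=
  deg_cast (deg_mul (deg_pow' deg_W n) (deg_mul deg_W (deg_mul (deg_Y 0) (deg_Y 1)))) (by omega)

lemma deg_h11 {P : Poly3} {n : ℕ} (hP : P.totalDegree ≤ n) :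
    (h11 n P).totalDegree ≤ 2 * n + 6 := by
  unfold h11
  refine deg_add (deg_add (deg_add ?_ ?_) ?_) ?_
  · exact deg_cast (deg_mul (deg_pow' deg_V 3) (deg_hom (deg_pd (deg_pd hP _) _))) (by omega)
  · exact deg_cast (deg_mul (deg_mul (deg_mul (deg_C 2 0) (deg_Y 0)) (deg_pow' deg_V 2))
      (deg_hom (deg_pd (deg_pd hP _) _))) (by omega)
  · exact deg_cast (deg_mul (deg_mul (deg_pow' (deg_Y 0) 2) deg_V)
      (deg_hom (deg_pd (deg_pd hP _) _))) (by omega)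
  · exact deg_cast (deg_mul (deg_WV 0) (deg_hom (deg_pd hP _))) (by omega)

lemma deg_h22 {P : Poly3} {n : ℕ} (hP : P.totalDegree ≤ n) :
    (h22 n P).totalDegree ≤ 2 * n + 6 := by
  unfold h22
  refine deg_add (deg_add (deg_add ?_ ?_) ?_) ?_
  · exact deg_cast (deg_mul (deg_pow' deg_V 3) (deg_hom (deg_pd (deg_pd hP _) _))) (by omega)
  · exact deg_cast (deg_mul (deg_mul (deg_mul (deg_C 2 0) (deg_Y 1)) (deg_pow' deg_V 2))
      (deg_hom (deg_pd (deg_pd hP _) _))) (by omega)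
  · exact deg_cast (deg_mul (deg_mul (deg_pow' (deg_Y 1) 2) deg_V)
      (deg_hom (deg_pd (deg_pd hP _) _))) (by omega)
  · exact deg_cast (deg_mul (deg_WV 1) (deg_hom (deg_pd hP _))) (by omega)

lemma deg_h12 {P : Poly3} {n : ℕ} (hP : P.totalDegree ≤ n) :
    (h12 n P).totalDegree ≤ 2 * n + 6 := by
  unfold h12
  refine deg_add (deg_add (deg_add (deg_add ?_ ?_) ?_) ?_) ?_
  · exact deg_cast (deg_mul (deg_pow' deg_V 3) (deg_hom (deg_pd (deg_pd hP _) _))) (by omega)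
  · exact deg_cast (deg_mul (deg_mul (deg_Y 1) (deg_pow' deg_V 2))
      (deg_hom (deg_pd (deg_pd hP _) _))) (by omega)
  · exact deg_cast (deg_mul (deg_mul (deg_Y 0) (deg_pow' deg_V 2))
      (deg_hom (deg_pd (deg_pd hP _) _))) (by omega)
  · exact deg_cast (deg_mul (deg_mul (deg_mul (deg_Y 0) (deg_Y 1)) deg_V)
      (deg_hom (deg_pd (deg_pd hP _) _))) (by omega)
  · exact deg_cast (deg_mul (deg_mul deg_W (deg_mul (deg_Y 0) (deg_Y 1)))
      (deg_hom (deg_pd hP _))) (by omega)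

lemma ev_entries (hF : S_XF) {P : Poly3} {n : ℕ} (hP : P.totalDegree ≤ n) (u : ℝ × ℝ)
    (hu : u.1 ^ 2 + u.2 ^ 2 < 1) :
    ev (g11 n) u = w u ^ n * (2 - w u) ^ 3 * G11 (X u) ∧
    ev (g12 n) u = w u ^ n * (2 - w u) ^ 3 * G12 (X u) ∧
    ev (g22 n) u = w u ^ n * (2 - w u) ^ 3 * G22 (X u) ∧
    ev (h11 n P) u = w u ^ n * (2 - w u) ^ 3 * H11 P (X u) ∧
    ev (h12 n P) u = w u ^ n * (2 - w u) ^ 3 * H12 P (X u) ∧
    ev (h22 n P) u = w u ^ n * (2 - w u) ^ 3 * H22 P (X u) := by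
  obtain ⟨hv, q1, q2, q3, q4, q5⟩ := quot hF u hu
  refine ⟨?_, ?_, ?_, ?_, ?_, ?_⟩
  · simp only [g11, ev_mul, ev_add, ev_pow, ev_W, ev_V, ev_Y0, ev_Y1]
    rw [← q3]
    ring
  · simp only [g12, ev_mul, ev_add, ev_pow, ev_W, ev_V, ev_Y0, ev_Y1]
    rw [← q4]
    ring
  · simp only [g22, ev_mul, ev_add, ev_pow, ev_W, ev_V, ev_Y0, ev_Y1]
    rw [← q5]
    ring
  · simp only [h11, ev_mul, ev_add, ev_pow, ev_W, ev_V, ev_Y0, ev_Y1, ev_C]
    rw [← q3, ← q1, ← val_X hF (deg_pd (deg_pd hP 0) 0) u hu,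
      ← val_X hF (deg_pd (deg_pd hP 2) 0) u hu, ← val_X hF (deg_pd (deg_pd hP 2) 2) u hu,
      ← val_X hF (deg_pd hP 2) u hu]
    unfold H11
    ring
  · simp only [h12, ev_mul, ev_add, ev_pow, ev_W, ev_V, ev_Y0, ev_Y1, ev_C]
    rw [← q4, ← q1, ← q2, ← val_X hF (deg_pd (deg_pd hP 1) 0) u hu,
      ← val_X hF (deg_pd (deg_pd hP 2) 0) u hu, ← val_X hF (deg_pd (deg_pd hP 2) 1) u hu,
      ← val_X hF (deg_pd (deg_pd hP 2) 2) u hu, ← val_X hF (deg_pd hP 2) u hu]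
    unfold H12
    ring
  · simp only [h22, ev_mul, ev_add, ev_pow, ev_W, ev_V, ev_Y0, ev_Y1, ev_C]
    rw [← q5, ← q2, ← val_X hF (deg_pd (deg_pd hP 1) 1) u hu,
      ← val_X hF (deg_pd (deg_pd hP 2) 1) u hu, ← val_X hF (deg_pd (deg_pd hP 2) 2) u hu,
      ← val_X hF (deg_pd hP 2) u hu]
    unfold H22
    ring

/-- the two expressions of the condition as polynomials -/
noncomputable def cd1 (s : ℝ) (α β γ e f g : Poly) : Poly :=
  (g * α - MvPolynomial.C 2 * f * β + e * γ) ^ 2 -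
    MvPolynomial.C 2 * (e * g - f ^ 2) * (α * γ - β ^ 2) -
    MvPolynomial.C (2 * s ^ 2) * (e * g - f ^ 2) ^ 2
noncomputable def cd2 (s : ℝ) (α β γ e f g : Poly) : Poly :=
  ((α * γ - β ^ 2) + MvPolynomial.C (s ^ 2) * (e * g - f ^ 2)) ^ 2 -
    MvPolynomial.C (s ^ 2) * (g * α - MvPolynomial.C 2 * f * β + e * γ) ^ 2

lemma ev_cd (s : ℝ) (α β γ e f g : Poly) (u : ℝ × ℝ) :
    CD s (ev α u) (ev β u) (ev γ u) (ev e u) (ev f u) (ev g u) ↔
      0 < ev (cd1 s α β γ e f g) u ∧ 0 < ev (cd2 s α β γ e f g) u := by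
  unfold CD cd1 cd2
  simp only [ev_mul, ev_add, ev_sub, ev_pow, ev_C]

lemma deg_cd {s : ℝ} {α β γ e f g : Poly} {d : ℕ} (hα : α.totalDegree ≤ d)
    (hβ : β.totalDegree ≤ d) (hγ : γ.totalDegree ≤ d) (he : e.totalDegree ≤ d)
    (hf : f.totalDegree ≤ d) (hg : g.totalDegree ≤ d) :
    (cd1 s α β γ e f g).totalDegree ≤ 4 * d ∧ (cd2 s α β γ e f g).totalDegree ≤ 4 * d := by
  have t1 : (g * α - MvPolynomial.C 2 * f * β + e * γ).totalDegree ≤ 2 * d := by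
    refine deg_add (deg_sub ?_ ?_) ?_
    · exact deg_cast (deg_mul hg hα) (by omega)
    · exact deg_cast (deg_mul (deg_mul (deg_C 2 0) hf) hβ) (by omega)
    · exact deg_cast (deg_mul he hγ) (by omega)
  have t2 : (e * g - f ^ 2).totalDegree ≤ 2 * d :=
    deg_sub (deg_cast (deg_mul he hg) (by omega)) (deg_cast (deg_pow' hf 2) (by omega))
  have t3 : (α * γ - β ^ 2).totalDegree ≤ 2 * d :=
    deg_sub (deg_cast (deg_mul hα hγ) (by omega)) (deg_cast (deg_pow' hβ 2) (by omega))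
  constructor
  · unfold cd1
    refine deg_sub (deg_sub ?_ ?_) ?_
    · exact deg_cast (deg_pow' t1 2) (by omega)
    · exact deg_cast (deg_mul (deg_mul (deg_C 2 0) t2) t3) (by omega)
    · exact deg_cast (deg_mul (deg_C (2 * s ^ 2) 0) (deg_pow' t2 2)) (by omega)
  · unfold cd2
    refine deg_sub ?_ ?_
    · have t4 : (α * γ - β ^ 2 + MvPolynomial.C (s ^ 2) * (e * g - f ^ 2)).totalDegree ≤
          2 * d := deg_add t3 (deg_cast (deg_mul (deg_C (s ^ 2) 0) t2) (by omega))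
      exact deg_cast (deg_pow' t4 2) (by omega)
    · exact deg_cast (deg_mul (deg_C (s ^ 2) 0) (deg_pow' t1 2)) (by omega)

/-- the regions are defined by polynomials -/
theorem rp (hF : S_XF) : S_RP := by
  intro P n s hP
  obtain ⟨d1, d2⟩ := deg_cd (s := s) (deg_h11 hP) (deg_h12 hP) (deg_h22 hP) (deg_g11 n)
    (deg_g12 n) (deg_g22 n)
  refine ⟨cd1 s (h11 n P) (h12 n P) (h22 n P) (g11 n) (g12 n) (g22 n),
    cd2 s (h11 n P) (h12 n P) (h22 n P) (g11 n) (g12 n) (g22 n),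
    deg_cast d1 (by omega), deg_cast d2 (by omega), ?_⟩
  intro u hu
  obtain ⟨e1, e2, e3, e4, e5, e6⟩ := ev_entries hF hP u hu
  rw [← ev_cd, e1, e2, e3, e4, e5, e6]
  have hκ : 0 < w u ^ n * (2 - w u) ^ 3 := by
    have h1 := w_pos u
    have h2 := (quot hF u hu).1
    positivity
  rw [← CD_smul hκ]
  rfl

end Pool.Agent.Y275.SS
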